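import Pool.Agent.K1H35.SH.Top

/-!
# MP_0fd30f_pr: random regular graphs are reconstructable from their 1-neighbourhoods

**Theorem (full answer to Q1, positive).** There is a constant `C` such that for all `n ≥ C` and all `d` with
`n d` even and `C n (log n) ^ 4 ≤ d ^ 2`, `2 d ≤ n`, the uniformly random `d`-regular graph on `n` vertices is
reconstructable from its 1-neighbourhoods with probability at least `1 - 1 / n`. In particular
(second part, Q1 as posed) for every `ε > 0` and every sequence `d_n` with `n d_n` even and
`n ^ (1/2 + ε) ≤ d_n ≤ n / 2` for all large `n`, the probability tends to `1`.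

## Proof

*Dense case* `d ^ 3 ≥ C n ^ 2 log n`. Three switching arguments: with high probability all codegrees are
less than `15 d / 16`; any two adjacent vertices `u, v` have at least `a` common neighbours which are not
adjacent to a third vertex `w`; no two disjoint sets of `a` vertices induce isomorphic subgraphs,
`a ~ (n / d) log n`. So the graphs induced by the common neighbourhoods of the edges are pairwise
non-isomorphic; they are visible from both ends.

*Sparse case* `d ^ 2 ≥ C n (log n) ^ 4`, `d ≤ c n`. Let `H` have the same 1-neighbourhoods as `G`, through the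
isomorphisms `f_v : N_G(v) → N_H(v)`. A defect is a pair `(v, x)` with `f_v(x) ≠ x`, and `v` is heavy if it has at
least `c d` defects.
1. Contraction (`t_CTR`): since all codegrees `|(N(u) ∩ N(v)) \ N(w)|` are at least `c d ^ 2 / n` and small sets are
   sparse, a defect `(y, x)`, `w = f_y(x)`, produces many edges of `H` at `w` which are not in `G`; it follows that
   the number of defects is at most `3 d` times the number of heavy vertices. So `H` and `G` differ in at most
   `3 d k` pairs if there are `k` heavy vertices, and `H = G` if there are none.
2. Local comparison (`t_LC`): for every set `U` of `u` vertices and every graph `H_0` on `U` with `e` edges the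
   probability that the random `d`-regular graph induces `H_0` on `U` is at most `u ^ u` divided by the number of
   graphs on `U` with `e` edges. (The number of graphs with a given degree sequence does not decrease when the
   sequence is made more balanced.)
3. Union bounds with 2: (`t_QE`) there are no configurations with `1 ≤ k ≤ c n / log n` heavy vertices;
   (`t_QGB`) for `s ~ n ^ 2 log n / d ^ 2` centres the maps `f_z` identify few pairs of vertices; (`t_QPB`) there is
   no approximate symmetry `(x, z) ↦ (π x, π⁻¹ z)` with many `x` moved by `π`.
4. By the second point most of the values `f_z(x)`, `z ∈ N_G(x)`, agree for most `x`; this gives a permutation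
   `π` with the approximate symmetry of the third point, so `π` is almost the identity and the number of
   heavy vertices is at most `c n / log n`. By the first point it is zero, and `H = G`.
-/

namespace Pool.Agent.Results.MP_0fd30f_pr.ShotgunRegular

open Pool.Agent.K1H35.SH

theorem result :
    (∃ C : ℝ, 0 < C ∧ ∀ n d : ℕ, C ≤ n → Even (n * d) →
      C * (n : ℝ) * (Real.log n) ^ 4 ≤ (d : ℝ) ^ 2 → 2 * d ≤ n →
      0 < {G : SimpleGraph (Fin n) | Regular d G}.ncard ∧
      1 - 1 / (n : ℝ) ≤ ({G : SimpleGraph (Fin n) | Regular d G ∧ Recon G}.ncard : ℝ) /
        ({G : SimpleGraph (Fin n) | Regular d G}.ncard : ℝ)) ∧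
    ∀ ε : ℝ, 0 < ε → ∀ d : ℕ → ℕ, (∀ n, Even (n * d n)) →
      (∀ᶠ n : ℕ in Filter.atTop, (n : ℝ) ^ ((1 : ℝ) / 2 + ε) ≤ d n ∧ (d n : ℝ) ≤ n / 2) →
      Filter.Tendsto (fun n : ℕ =>
        ({G : SimpleGraph (Fin n) | Regular (d n) G ∧ Recon G}.ncard : ℝ) /
        ({G : SimpleGraph (Fin n) | Regular (d n) G}.ncard : ℝ)) Filter.atTop (nhds 1) :=
  ⟨final_quant r_FULL r_EX, final_seq (final_quant r_FULL r_EX)⟩

end Pool.Agent.Results.MP_0fd30f_pr.ShotgunRegular
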